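import Pool.Agent.J4.H12.PG.Van

/-!
# Characters of defect zero and normal subgroups of index prime to `p`
-/

set_option autoImplicit false
set_option linter.unusedSectionVars false

open scoped BigOperators Classical
open Pool.Agent.Helper884.IC
open Pool.Agent.Y63.AWC hiding ind
open Pool.Agent.Y930.NV
open Pool.Agent.Y63.NV (centralValue InZ redC IsWt Nw)

noncomputable section

namespace Pool.Agent.J4.H12.PG

section infl
variable {J : Type} [Group J] [Fintype J]

/-- the indicator of a subgroup -/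
def ic {J : Type} [Group J] (Q : Subgroup J) : J → ℂ := fun g => if g ∈ Q then 1 else 0

theorem ic_cf (Q : Subgroup J) [hQ : Q.Normal] : Cf (ic Q) := by
  intro g x
  unfold ic
  have : g * x * g⁻¹ ∈ Q ↔ x ∈ Q := by
    constructor
    · intro h
      have := hQ.conj_mem _ h g⁻¹
      have e : g⁻¹ * (g * x * g⁻¹) * g⁻¹⁻¹ = x := by group
      rwa [e] at this
    · intro h
      exact hQ.conj_mem _ h g
  simp only [this]

theorem triv_of_om (Q : Subgroup J) [hQ : Q.Normal] {V : Type} [AddCommGroup V] [Module ℂ V]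
    [FiniteDimensional ℂ V] (ρ : Representation ℂ J V) (hr : ρ.IsIrreducible)
    (h : om ρ.character (ic Q) = (Nat.card Q : ℂ)) (q : J) (hq : q ∈ Q) : ρ q = 1 := by
  have h1 := Tp_eq ρ hr _ (ic_cf Q)
  rw [h] at h1
  have h2 : ρ q * Tp ρ (ic Q) = Tp ρ (ic Q) := by
    unfold Tp
    rw [Finset.mul_sum]
    refine Fintype.sum_equiv (Equiv.mulLeft q) _ _ fun g => ?_
    rw [Equiv.coe_mulLeft, mul_smul_comm, ← map_mul]
    congr 1
    unfold ic
    simp only [Subgroup.mul_mem_cancel_left Q hq]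
  rw [h1, mul_smul_comm, mul_one] at h2
  have h3 : (Nat.card Q : ℂ) ≠ 0 := by exact_mod_cast (Nat.card_pos (α := Q)).ne'
  exact smul_right_injective _ h3 h2

theorem om_ic_of_infl (Q : Subgroup J) {χ : J → ℂ} (h : IsIrrChar χ)
    (hq : ∀ q ∈ Q, ∀ x, χ (q * x) = χ x) : om χ (ic Q) = (Nat.card Q : ℂ) := by
  unfold om
  have h1 : ∀ g : J, ic Q g * χ g = if g ∈ Q then χ 1 else 0 := by
    intro g
    unfold ic
    split_ifs with hg
    · rw [one_mul]
      have := hq g hg 1
      rwa [mul_one] at this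
    · rw [zero_mul]
  rw [Finset.sum_congr rfl fun g _ => h1 g, ← Finset.sum_filter, Finset.sum_const, nsmul_eq_mul,
    mul_div_assoc, div_self (one_ne h), mul_one]
  congr 1
  rw [← Fintype.card_subtype, ← Nat.card_eq_fintype_card]

theorem infl_of_om (Q : Subgroup J) [Q.Normal] {χ : J → ℂ} (h : IsIrrChar χ)
    (ho : om χ (ic Q) = (Nat.card Q : ℂ)) : ∀ q ∈ Q, ∀ x, χ (q * x) = χ x := by
  obtain ⟨V, _, _, _, ρ, hr, rfl⟩ := h
  intro q hq x
  have h1 := triv_of_om Q ρ hr ho q hq
  unfold Representation.character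
  rw [map_mul, h1, one_mul]

/-- descent to the quotient -/
theorem descend (Q : Subgroup J) [Q.Normal] {χ : J → ℂ} (h : IsIrrChar χ)
    (hq : ∀ q ∈ Q, ∀ x, χ (q * x) = χ x) :
    ∃ χ' : J ⧸ Q → ℂ, IsIrrChar χ' ∧ ∀ x : J, χ x = χ' (x : J ⧸ Q) := by
  have ho := om_ic_of_infl Q h hq
  obtain ⟨V, i1, i2, i3, ρ, hr, rfl⟩ := h
  have ht := triv_of_om Q ρ hr ho
  let ρ' : Representation ℂ (J ⧸ Q) V := QuotientGroup.lift Q ρ (fun q hq => ht q hq)
  have hρ : ∀ x : J, ρ' (x : J ⧸ Q) = ρ x := fun x => rfl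
  refine ⟨ρ'.character, ⟨V, i1, i2, i3, ρ', ?_, rfl⟩, fun x => rfl⟩
  have e : Subrepresentation ρ' ≃o Subrepresentation ρ :=
    { toFun := fun W => ⟨W.toSubmodule, fun g v hv => W.apply_mem_toSubmodule (g : J ⧸ Q) hv⟩
      invFun := fun W => ⟨W.toSubmodule, fun g v hv => by
        obtain ⟨x, rfl⟩ := QuotientGroup.mk_surjective g
        exact W.apply_mem_toSubmodule x hv⟩
      left_inv := fun W => rfl
      right_inv := fun W => rfl
      map_rel_iff' := Iff.rfl }
  exact (OrderIso.isSimpleOrder_iff e).2 hr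

theorem fac_le {p : ℕ} (Q : Subgroup J) [Q.Normal] {χ : J → ℂ} (h : IsIrrChar χ)
    (hq : ∀ q ∈ Q, ∀ x, χ (q * x) = χ x) {n : ℕ} (hn : χ 1 = (n : ℂ)) :
    n.factorization p + (Nat.card Q).factorization p ≤ (Nat.card J).factorization p := by
  have : Fintype (J ⧸ Q) := Fintype.ofFinite _
  obtain ⟨χ', h', he⟩ := descend Q h hq
  have h1 : χ' 1 = (n : ℂ) := by
    rw [← hn, he 1]
    rfl
  have h2 := deg_dvd h' h1
  have hn0 : n ≠ 0 := by
    rintro rfl
    exact one_ne h (by simpa using hn)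
  have h3 := Subgroup.card_eq_card_quotient_mul_card_subgroup Q
  have h4 : n.factorization p ≤ (Nat.card (J ⧸ Q)).factorization p :=
    (Nat.factorization_le_iff_dvd hn0 Nat.card_pos.ne').2 h2 p
  rw [h3, Nat.factorization_mul Nat.card_pos.ne' Nat.card_pos.ne', Finsupp.add_apply]
  omega

theorem wt_vanish {p : ℕ} (hp : p.Prime) (Q : Subgroup J) [Q.Normal] {χ : J → ℂ}
    (hw : IsWt p Q χ) {x : J} (hx : x ∉ Q) {k : ℕ} (hk : x ^ (p ^ k) = 1) : χ x = 0 := by
  have : Fintype (J ⧸ Q) := Fintype.ofFinite _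
  obtain ⟨χ', h', he⟩ := descend Q hw.irr hw.inflated
  obtain ⟨n, hn, hdz⟩ := hw.defectZero
  rw [he x]
  have h1 : χ' 1 = (n : ℂ) := by
    rw [← hn, he 1]
    rfl
  have h3 := Subgroup.card_eq_card_quotient_mul_card_subgroup Q
  rw [h3, Nat.factorization_mul Nat.card_pos.ne' Nat.card_pos.ne', Finsupp.add_apply] at hdz
  refine vanish hp h' h1 (by omega) ?_
  have h4 : (x : J ⧸ Q) ^ (p ^ k) = 1 := by
    rw [← QuotientGroup.mk_pow, hk]
    rfl
  have h5 : (x : J ⧸ Q) ≠ 1 := by
    intro h6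
    exact hx ((QuotientGroup.eq_one_iff x).1 h6)
  have h6 := orderOf_dvd_of_pow_eq_one h4
  obtain ⟨j, _, hj⟩ := (Nat.dvd_prime_pow hp).1 h6
  rw [hj]
  rcases Nat.eq_zero_or_pos j with h7 | h7
  · rw [h7, pow_zero, orderOf_eq_one_iff] at hj
    exact absurd hj h5
  · exact dvd_pow_self p h7.ne'

/-- averages over subgroups are natural numbers -/
theorem avg_nat (P : Subgroup J) {θ : J → ℂ} (h : IsIrrChar θ) :
    ∃ a : ℕ, ∑ x : P, θ x = (Nat.card P : ℂ) * a := by
  obtain ⟨V, _, _, _, ρ, hr, rfl⟩ := h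
  haveI : Invertible (Nat.card P : ℂ) := invertibleOfNonzero cardG_ne
  let ρ' : Representation ℂ P V := ρ.comp P.subtype
  have h1 := Representation.card_inv_mul_sum_char_eq_finrank ρ'
  refine ⟨Module.finrank ℂ ρ'.invariants, ?_⟩
  rw [← h1, mul_inv_cancel_left₀ (cardG_ne (G := P))]
  rfl

theorem sum_sub (P : Subgroup J) (f : J → ℂ) (hf : ∀ g, g ∉ P → f g = 0) :
    ∑ g : J, f g = ∑ m : P, f m := by
  rw [← Finset.sum_subtype (Finset.univ.filter (· ∈ P)) (by simp) f]
  symm
  apply Finset.sum_subset (Finset.filter_subset _ _)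
  intro x _ hx
  apply hf
  simpa using hx

end infl

section main
variable {X : Type} [Group X] [Fintype X] (M : Subgroup X) [hM : M.Normal]

/-- the average over `P` -/
def avg (P : Subgroup M) (θ : M → ℂ) : ℕ :=
  if h : ∃ a : ℕ, ∑ x : P, θ x = (Nat.card P : ℂ) * a then h.choose else 0

theorem avg_spec (P : Subgroup M) {θ : M → ℂ} (h : IsIrrChar θ) :
    ∑ x : P, θ x = (Nat.card P : ℂ) * avg M P θ := by
  have h1 := avg_nat P h
  unfold avg
  rw [dif_pos h1]
  exact h1.choose_spec

theorem avg_sum_dvd (P : Subgroup M) {θ : M → ℂ} (h : IsIrrChar θ) :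
    Nat.card M ∣ ∑ g : X, avg M P (cj M g θ) := by
  have h1 := orbit_sum_dvd (H := M) (Ω := X) (A := ℤ) (fun g => (avg M P (cj M g θ) : ℤ))
    (by
      intro i g
      change ((avg M P (cj M ((i : X) * g) θ) : ℕ) : ℤ) = _
      have h2 : cj M (i : X) θ = θ := le_St M h.isClass i.2
      rw [cj_mul, h2]) (Nat.card M) (by
      intro g
      have e : M ≃ MulAction.orbit M g := Equiv.ofBijective
        (fun m => ⟨m • g, MulAction.mem_orbit g m⟩) (by
          constructor
          · intro a b hab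
            have h3 := congrArg Subtype.val hab
            change (a : X) * g = (b : X) * g at h3
            exact Subtype.ext (mul_right_cancel h3)
          · rintro ⟨_, m, rfl⟩
            exact ⟨m, rfl⟩)
      rw [Nat.card_congr e])
  exact_mod_cast h1

/-- the class function `y ↦ #{g : g⁻¹ y g ∈ P}` -/
def cnt (P : Subgroup M) : X → ℂ := fun y => ∑ g : X, ic (P.map M.subtype) (g⁻¹ * y * g)

theorem cnt_cf (P : Subgroup M) : ∀ g x : X, cnt M P (g * x * g⁻¹) = cnt M P x := by
  intro h x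
  unfold cnt
  refine Fintype.sum_equiv (Equiv.mulLeft h⁻¹) _ _ fun g => ?_
  rw [Equiv.coe_mulLeft]
  congr 1
  group

theorem cnt_supp (P : Subgroup M) : ∀ x, x ∉ M → cnt M P x = 0 := by
  intro x hx
  unfold cnt
  refine Finset.sum_eq_zero fun g _ => ?_
  unfold ic
  rw [if_neg]
  rintro ⟨y, _, hy⟩
  apply hx
  have h1 : x = g * (y : X) * g⁻¹ := by
    have h2 : (y : X) = g⁻¹ * x * g := hy
    rw [h2]
    group
  rw [h1]
  exact hM.conj_mem _ y.2 g

theorem om_cnt (P : Subgroup M) {χ : X → ℂ} (h : IsIrrChar χ) :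
    om χ (cnt M P) = (Nat.card X : ℂ) * (∑ m : P, χ ((m : M) : X)) / χ 1 := by
  unfold om cnt
  congr 1
  have h1 : ∀ y : X, (∑ g : X, ic (P.map M.subtype) (g⁻¹ * y * g)) * χ y =
      ∑ g : X, ic (P.map M.subtype) (g⁻¹ * y * g) * χ (g⁻¹ * y * g) := by
    intro y
    rw [Finset.sum_mul]
    refine Finset.sum_congr rfl fun g _ => ?_
    congr 1
    have := h.isClass y g⁻¹
    rw [inv_inv] at this
    exact this.symm
  rw [Finset.sum_congr rfl fun y _ => h1 y, Finset.sum_comm]
  have h2 : ∀ g : X, ∑ y : X, ic (P.map M.subtype) (g⁻¹ * y * g) * χ (g⁻¹ * y * g) =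
      ∑ m : P, χ ((m : M) : X) := by
    intro g
    have h3 : ∑ y : X, ic (P.map M.subtype) (g⁻¹ * y * g) * χ (g⁻¹ * y * g) =
        ∑ y : X, ic (P.map M.subtype) y * χ y := by
      refine Fintype.sum_equiv (MulAut.conj g⁻¹).toEquiv _ _ fun y => ?_
      simp
    rw [h3, sum_M M (fun y => ic (P.map M.subtype) y * χ y)]
    · rw [sum_sub P (fun m : M => ic (P.map M.subtype) (m : X) * χ m)]
      · refine Finset.sum_congr rfl fun m _ => ?_
        unfold ic
        rw [if_pos, one_mul]
        exact ⟨m, m.2, rfl⟩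
      · intro m hm
        unfold ic
        rw [if_neg, zero_mul]
        rintro ⟨y, hy, hy2⟩
        exact hm (Subtype.ext hy2 ▸ hy)
    · intro y hy
      unfold ic
      rw [if_neg, zero_mul]
      rintro ⟨m, _, rfl⟩
      exact hy m.2
  rw [Finset.sum_congr rfl fun g _ => h2 g, Finset.sum_const, Finset.card_univ, nsmul_eq_mul,
    Nat.card_eq_fintype_card]

theorem om_cnt' (P : Subgroup M) {θ : M → ℂ} (h : IsIrrChar θ) :
    om θ (fun m : M => cnt M P m) =
      (Nat.card P : ℂ) * ((∑ g : X, avg M P (cj M g θ) : ℕ) : ℂ) / θ 1 := by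
  unfold om
  congr 1
  have h1 : ∀ m : M, cnt M P m * θ m = ∑ g : X, ic (P.map M.subtype) (g⁻¹ * m * g) * θ m := by
    intro m
    unfold cnt
    rw [Finset.sum_mul]
  rw [Finset.sum_congr rfl fun m _ => h1 m, Finset.sum_comm]
  push_cast
  rw [Finset.mul_sum]
  refine Finset.sum_congr rfl fun g _ => ?_
  rw [← avg_spec M P (cj_irr M g h)]
  have h2 : ∑ m : M, ic (P.map M.subtype) (g⁻¹ * (m : X) * g) * θ m =
      ∑ m : M, ic (P.map M.subtype) (m : X) * cj M g θ m := by
    refine (Fintype.sum_equiv (MulAut.conjNormal g).toEquiv _ _ fun m => ?_).symm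
    change ic (P.map M.subtype) (m : X) * θ (MulAut.conjNormal g m) =
      ic (P.map M.subtype) (g⁻¹ * ((MulAut.conjNormal g m : M) : X) * g) *
        θ (MulAut.conjNormal g m)
    congr 2
    rw [MulAut.conjNormal_apply]
    group
  rw [h2, sum_sub P (fun m : M => ic (P.map M.subtype) (m : X) * cj M g θ m)]
  · refine Finset.sum_congr rfl fun m _ => ?_
    unfold ic
    rw [if_pos, one_mul]
    exact ⟨m, m.2, rfl⟩
  · intro m hm
    unfold ic
    rw [if_neg, zero_mul]
    rintro ⟨y, hy, hy2⟩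
    exact hm (Subtype.ext hy2 ▸ hy)

variable {p : ℕ} [hp : Fact p.Prime] (Q : Subgroup X) [hQn : Q.Normal]

theorem infl_iff (hQM : Q ≤ M) {chi : X → ℂ} {theta : M → ℂ} (hc : IsIrrChar chi)
    (ht : IsIrrChar theta) (hm : mult M chi theta ≠ 0) :
    (∀ q ∈ Q, ∀ x, chi (q * x) = chi x) ↔
      (∀ q ∈ Q.subgroupOf M, ∀ x, theta (q * x) = theta x) := by
  have h1 : om chi (ic Q) = om theta (fun m : M => ic Q (m : X)) :=
    Pool.Agent.Y809.NV.om_eq M hc ht hm (ic_cf Q) (fun x hx => by
      unfold ic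
      rw [if_neg (fun h => hx (hQM h))])
  have h2 : (fun m : M => ic Q (m : X)) = ic (Q.subgroupOf M) := by
    funext m
    unfold ic
    simp only [Subgroup.mem_subgroupOf]
  have h3 : Nat.card (Q.subgroupOf M) = Nat.card Q :=
    Nat.card_congr (Subgroup.subgroupOfEquivOfLe hQM).toEquiv
  rw [h2] at h1
  constructor
  · intro h
    apply infl_of_om _ ht
    rw [← h1, h3]
    exact om_ic_of_infl Q hc h
  · intro h
    apply infl_of_om _ hc
    rw [h1, ← h3]
    exact om_ic_of_infl _ ht h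

theorem index_fac (hpM : ¬ p ∣ M.index) :
    (Nat.card X).factorization p = (Nat.card M).factorization p := by
  rw [← M.card_mul_index, Nat.factorization_mul Nat.card_pos.ne' (Subgroup.index_ne_zero_of_finite),
    Finsupp.add_apply, Nat.factorization_eq_zero_of_not_dvd hpM, add_zero]

/-- **weights and constituents** -/
theorem wt_iff (hpM : ¬ p ∣ M.index) (hQM : Q ≤ M) (hQ : IsPGroup p Q) {chi : X → ℂ}
    {theta : M → ℂ} (hc : IsIrrChar chi) (ht : IsIrrChar theta) (hm : mult M chi theta ≠ 0) :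
    IsWt p Q chi ↔ IsWt p (Q.subgroupOf M) theta := by
  have hi := infl_iff M Q hQM hc ht hm
  have hQc : Nat.card (Q.subgroupOf M) = Nat.card Q :=
    Nat.card_congr (Subgroup.subgroupOfEquivOfLe hQM).toEquiv
  obtain ⟨n, hn0, hn⟩ := deg_nat hc
  obtain ⟨d, hd0, hd⟩ := deg_nat ht
  have hfac := index_fac M (p := p) hpM
  constructor
  · intro hw
    refine ⟨ht, hi.1 hw.inflated, d, hd, ?_⟩
    apply le_antisymm (fac_le _ ht (hi.1 hw.inflated) hd)
    have hQ' : IsPGroup p (Q.subgroupOf M) :=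
      hQ.of_equiv (Subgroup.subgroupOfEquivOfLe hQM).symm
    obtain ⟨P, hP⟩ := hQ'.exists_le_sylow
    have hPc : Nat.card (P : Subgroup M) = p ^ (Nat.card M).factorization p := P.card_eq_multiplicity
    have h1 := Pool.Agent.Y809.NV.om_eq M hc ht hm (cnt_cf M (P : Subgroup M))
      (cnt_supp M (P : Subgroup M))
    rw [om_cnt M _ hc, om_cnt' M _ ht] at h1
    -- the sum over the Sylow subgroup
    have h2 : ∑ m : (P : Subgroup M), chi ((m : M) : X) = (Nat.card Q : ℂ) * chi 1 := by
      have h3 : ∀ m : (P : Subgroup M), chi ((m : M) : X) =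
          if (m : M) ∈ Q.subgroupOf M then chi 1 else 0 := by
        intro m
        split_ifs with hmQ
        · have := hw.inflated _ (Subgroup.mem_subgroupOf.1 hmQ) 1
          rwa [mul_one] at this
        · obtain ⟨k, hk⟩ := P.isPGroup' m
          refine wt_vanish hp.out Q hw (fun h => hmQ (Subgroup.mem_subgroupOf.2 h)) (k := k) ?_
          have := congrArg (fun t : (P : Subgroup M) => ((t : M) : X)) hk
          simpa using this
      rw [Finset.sum_congr rfl fun m _ => h3 m, ← Finset.sum_filter, Finset.sum_const,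
        nsmul_eq_mul]
      congr 2
      rw [← hQc, ← Fintype.card_subtype, ← Nat.card_eq_fintype_card]
      exact Nat.card_congr
        { toFun := fun m => ⟨m.1.1, m.2⟩
          invFun := fun q => ⟨⟨q.1, hP q.2⟩, q.2⟩
          left_inv := fun m => rfl
          right_inv := fun q => rfl }
    obtain ⟨s, hs⟩ := avg_sum_dvd M (P : Subgroup M) ht
    rw [h2, hs, hd, hn, hPc] at h1
    have hnC : (n : ℂ) ≠ 0 := by exact_mod_cast hn0.ne'
    have hdC : (d : ℂ) ≠ 0 := by exact_mod_cast hd0.ne'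
    have h4 : (Nat.card X : ℂ) * Nat.card Q * d =
        (p : ℂ) ^ (Nat.card M).factorization p * (Nat.card M * s) := by
      rw [← mul_assoc, mul_div_assoc, div_self hnC, mul_one] at h1
      rw [h1]
      push_cast
      field_simp
    have h5 : Nat.card X * Nat.card Q * d = p ^ (Nat.card M).factorization p * (Nat.card M * s) := by
      exact_mod_cast h4
    rw [← M.card_mul_index] at h5
    have h6 : M.index * (Nat.card Q * d) = p ^ (Nat.card M).factorization p * s := by
      apply Nat.eq_of_mul_eq_mul_left (Nat.card_pos (α := M))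
      linarith
    have h7 : p ^ (Nat.card M).factorization p ∣ Nat.card Q * d := by
      have h8 : Nat.Coprime (p ^ (Nat.card M).factorization p) M.index :=
        Nat.Coprime.pow_left _ ((hp.out.coprime_iff_not_dvd).2 hpM)
      exact h8.dvd_of_dvd_mul_left ⟨s, h6⟩
    have h9 := (hp.out.pow_dvd_iff_le_factorization
      (Nat.mul_ne_zero Nat.card_pos.ne' hd0.ne')).1 h7
    rw [Nat.factorization_mul Nat.card_pos.ne' hd0.ne', Finsupp.add_apply] at h9
    rw [hQc]
    omega
  · intro hw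
    refine ⟨hc, hi.2 hw.inflated, n, hn, ?_⟩
    apply le_antisymm (fac_le _ hc (hi.2 hw.inflated) hn)
    obtain ⟨d', hd', hdz⟩ := hw.defectZero
    have hdd : d' = d := by
      rw [hd] at hd'
      exact_mod_cast hd'.symm
    subst hdd
    have h1 := deg_eq M hc ht hm hn hd
    have h2 : d'.factorization p ≤ n.factorization p :=
      (Nat.factorization_le_iff_dvd hd0.ne' hn0.ne').2 ⟨(Orb M theta).card * mult M chi theta, by rw [h1]; ring⟩ p
    rw [hQc] at hdz
    omega

theorem card_Orb_le (theta : M → ℂ) (ht : IsIrrChar theta) : (Orb M theta).card ≤ M.index := by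
  have h1 := card_Orb_mul M theta
  have h2 : Nat.card M ≤ Nat.card (St M theta) :=
    Subgroup.card_le_of_le (le_St M ht.isClass)
  rw [← M.card_mul_index, mul_comm (Nat.card M)] at h1
  have h3 : (Orb M theta).card * Nat.card M ≤ M.index * Nat.card M := by
    rw [← h1]
    exact Nat.mul_le_mul_left _ h2
  exact Nat.le_of_mul_le_mul_right h3 Nat.card_pos

theorem exists_over {theta : M → ℂ} (ht : IsIrrChar theta) :
    ∃ chi : X → ℂ, IsIrrChar chi ∧ mult M chi theta ≠ 0 := by
  by_contra hcon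
  push Not at hcon
  have h1 := St_eq M ht
  rw [Finset.sum_eq_zero (fun chi hc => by rw [hcon chi (mem_Irr.1 hc)]; simp), mul_zero] at h1
  exact Nat.card_pos.ne' h1

theorem card_over_le {theta : M → ℂ} (ht : IsIrrChar theta) :
    ((Irr X).filter fun chi => mult M chi theta ≠ 0).card ≤ M.index := by
  have h1 := St_eq M ht
  have h2 : Nat.card (St M theta) ≤ Nat.card X :=
    Nat.card_le_card_of_injective _ Subtype.val_injective
  rw [h1, ← M.card_mul_index] at h2
  have h3 := Nat.le_of_mul_le_mul_left h2 Nat.card_pos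
  refine le_trans ?_ h3
  rw [Finset.card_filter]
  refine Finset.sum_le_sum fun chi _ => ?_
  split_ifs with h
  · exact Nat.one_le_pow _ _ (Nat.pos_of_ne_zero h)
  · exact Nat.zero_le _

end main

theorem nw_eq {J F : Type} [Group J] [Fintype J] [Field F] (p : ℕ)
    (red : integralClosure ℤ ℂ →+* F) (Q : Subgroup J) (f : J → F) (c : F) :
    Nw p red Q f c = ((Irr J).filter fun chi => IsWt p Q chi ∧ centralValue red chi f = c).card := by
  unfold Nw
  rw [← Fintype.card_coe, ← Nat.card_eq_fintype_card]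
  refine Nat.card_congr (Equiv.subtypeEquivRight fun theta => ?_)
  rw [Finset.mem_filter, mem_Irr]
  exact ⟨fun h => ⟨h.1.irr, h⟩, fun h => h.2⟩

end Pool.Agent.J4.H12.PG

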