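import Pool.Agent.J4.H12.PG.Words
import Pool.Agent.Y809.NV.ClifL
import Pool.Agent.J4.H3.PG.D1

/-!
# Characters of defect zero vanish at the `p`-singular elements
-/

set_option autoImplicit false
set_option linter.unusedSectionVars false

open scoped BigOperators Classical
open Pool.Agent.Helper884.IC
open Pool.Agent.Y63.AWC hiding ind
open Pool.Agent.Y930.NV
open Pool.Agent.Y63.NV (centralValue InZ redC IsWt Nw)

noncomputable section

namespace Pool.Agent.J4.H12.PG

/-- an algebraic integer which is divisible by all powers of `p` is zero -/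
theorem int_dvd_zero {p : ℕ} (hp : p.Prime) (β : integralClosure ℤ ℂ)
    (h : ∀ r : ℕ, ((p ^ r : ℕ) : integralClosure ℤ ℂ) ∣ β) : β = 0 := by
  by_contra hβ
  have h1 : IsIntegral ℤ β := Algebra.IsIntegral.isIntegral β
  obtain ⟨c, hc, d, hd⟩ := h1.isAlgebraic.exists_nonzero_dvd (mem_nonZeroDivisors_of_ne_zero hβ)
  apply hc
  have h2 : ∀ r : ℕ, ((p : ℤ) ^ r) ∣ c := by
    intro r
    obtain ⟨γ, hγ⟩ := h r
    have h3 : ((c : ℤ) : ℂ) = (p : ℂ) ^ r * ((γ * d : integralClosure ℤ ℂ) : ℂ) := by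
      have h4 := congrArg (fun t : integralClosure ℤ ℂ => (t : ℂ)) hd
      rw [hγ] at h4
      change ((algebraMap ℤ (integralClosure ℤ ℂ) c : integralClosure ℤ ℂ) : ℂ) = _ at h4
      have h5 : ((algebraMap ℤ (integralClosure ℤ ℂ) c : integralClosure ℤ ℂ) : ℂ) = (c : ℂ) := by
        simp
      rw [h5] at h4
      rw [h4]
      push_cast
      ring
    have hp0 : (p : ℂ) ≠ 0 := by exact_mod_cast hp.ne_zero
    have h6 : IsIntegral ℤ (((c : ℚ) / (p : ℚ) ^ r : ℚ) : ℂ) := by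
      have h7 : (((c : ℚ) / (p : ℚ) ^ r : ℚ) : ℂ) = ((γ * d : integralClosure ℤ ℂ) : ℂ) := by
        push_cast
        rw [h3]
        push_cast
        field_simp
      rw [h7]
      exact (γ * d).2
    have h8 : IsIntegral ℤ ((c : ℚ) / (p : ℚ) ^ r : ℚ) := by
      have h9 : (((c : ℚ) / (p : ℚ) ^ r : ℚ) : ℂ) = algebraMap ℚ ℂ ((c : ℚ) / (p : ℚ) ^ r) := rfl
      rw [h9] at h6
      exact (isIntegral_algebraMap_iff (algebraMap ℚ ℂ).injective).1 h6
    obtain ⟨e, he⟩ := IsIntegrallyClosed.isIntegral_iff.1 h8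
    refine ⟨e, ?_⟩
    have hp0' : (p : ℚ) ≠ 0 := by exact_mod_cast hp.ne_zero
    have h10 : (e : ℚ) = (c : ℚ) / (p : ℚ) ^ r := he
    have h11 : (c : ℚ) = (p : ℚ) ^ r * e := by
      rw [h10]
      field_simp
    exact_mod_cast h11
  by_contra hc0
  have h3 := h2 c.natAbs
  have h4 : (p : ℤ) ^ c.natAbs ≤ |c| := by
    have := Int.le_of_dvd (abs_pos.2 hc0) ((dvd_abs _ _).2 h3)
    exact this
  have h5 : c.natAbs < p ^ c.natAbs := Nat.lt_pow_self hp.one_lt
  have h6 : (p : ℤ) ^ c.natAbs ≤ (c.natAbs : ℤ) := by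
    rw [Int.natCast_natAbs]
    exact h4
  have h7 : p ^ c.natAbs ≤ c.natAbs := by exact_mod_cast h6
  omega

section conv
variable {J : Type} [Group J] [Fintype J]

theorem om_self {χ : J → ℂ} (h : IsIrrChar χ) :
    om χ (fun g => χ g⁻¹) = (Nat.card J : ℂ) / χ 1 := by
  unfold om
  have h1 := B_irr h h
  rw [if_pos rfl] at h1
  unfold B at h1
  have h2 : ∑ g : J, χ g * χ g⁻¹ = (Nat.card J : ℂ) := by
    have h3 := cardG_ne (G := J)
    field_simp at h1
    exact h1
  rw [← h2]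
  congr 1
  exact Finset.sum_congr rfl fun g _ => mul_comm _ _

/-- the central idempotent of `χ`, up to a scalar -/
theorem conv_char {χ : J → ℂ} (h : IsIrrChar χ) (x : J) :
    ∑ g : J, χ g⁻¹ * χ (g⁻¹ * x)⁻¹ = (Nat.card J : ℂ) / χ 1 * χ x⁻¹ := by
  have hs := om_self h
  obtain ⟨V, _, _, _, ρ, hr, rfl⟩ := h
  have hcf : Cf (fun g => ρ.character g⁻¹) := by
    intro g x
    show ρ.character (g * x * g⁻¹)⁻¹ = ρ.character x⁻¹
    have : (g * x * g⁻¹)⁻¹ = g * x⁻¹ * g⁻¹ := by group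
    rw [this]
    exact ρ.char_conj x⁻¹ g
  have h1 := Tp_eq ρ hr _ hcf
  rw [hs] at h1
  have h2 := congrArg (fun T => LinearMap.trace ℂ V (ρ x⁻¹ * T)) h1
  simp only [Tp, Finset.mul_sum, map_sum, mul_smul_comm, map_smul, smul_eq_mul, mul_one] at h2
  have h3 : ∀ g : J, LinearMap.trace ℂ V (ρ x⁻¹ * ρ g) = ρ.character (g⁻¹ * x)⁻¹ := by
    intro g
    rw [← map_mul]
    have : (g⁻¹ * x)⁻¹ = x⁻¹ * g := by group
    rw [this]
    rfl
  simp only [h3] at h2
  exact h2

/-- **a character of defect zero vanishes at the `p`-singular elements** -/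
theorem vanish {p : ℕ} (hp : p.Prime) {χ : J → ℂ} (h : IsIrrChar χ) {n : ℕ} (hn : χ 1 = (n : ℂ))
    (hdz : n.factorization p = (Nat.card J).factorization p) {x : J} (hx : p ∣ orderOf x) :
    χ x = 0 := by
  have hn0 : n ≠ 0 := by
    rintro rfl
    exact one_ne h (by simpa using hn)
  obtain ⟨m, hm⟩ := deg_dvd h hn
  have hm0 : m ≠ 0 := by
    rintro rfl
    rw [mul_zero] at hm
    exact Nat.card_pos.ne' hm
  have hpm : ¬ p ∣ m := by
    intro hpm
    have h1 : (Nat.card J).factorization p = n.factorization p + m.factorization p := by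
      rw [hm, Nat.factorization_mul hn0 hm0]
      rfl
    have h2 : 0 < m.factorization p := hp.factorization_pos_of_dvd hm0 hpm
    omega
  let b : J → integralClosure ℤ ℂ := fun g => ⟨χ g⁻¹, isIntegral_char h g⁻¹⟩
  have hb : ∀ y, ∑ g, b g * b (g⁻¹ * y) = (m : integralClosure ℤ ℂ) * b y := by
    intro y
    apply Subtype.ext
    push_cast
    have h1 := conv_char h y
    have h2 : (Nat.card J : ℂ) / χ 1 = (m : ℂ) := by
      rw [hn, hm]
      push_cast
      have : (n : ℂ) ≠ 0 := by exact_mod_cast hn0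
      field_simp
    rw [h2] at h1
    exact h1
  set β : integralClosure ℤ ℂ := ∑ g, b g * (if ConjClasses.mk g = ConjClasses.mk x⁻¹ then 1 else 0)
    with hβ
  have hx' : p ∣ orderOf x⁻¹ := by rwa [orderOf_inv]
  have h1 : ∀ r : ℕ, ((p ^ r : ℕ) : integralClosure ℤ ℂ) ∣ β := by
    intro r
    have h2 := class_sum_dvd hp b (m : integralClosure ℤ ℂ) hb x⁻¹ hx' r
    rw [← hβ, ← Nat.cast_pow] at h2
    have h3 : IsCoprime ((p ^ r : ℕ) : integralClosure ℤ ℂ)
        ((m ^ (p ^ (r + (Nat.card J).factorization p) - 1) : ℕ) : integralClosure ℤ ℂ) := by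
      have h4 : Nat.Coprime (p ^ r) (m ^ (p ^ (r + (Nat.card J).factorization p) - 1)) :=
        Nat.Coprime.pow _ _ ((hp.coprime_iff_not_dvd).2 hpm)
      have h5 := (Nat.isCoprime_iff_coprime.2 h4).map
        (algebraMap ℤ (integralClosure ℤ ℂ))
      simpa using h5
    exact h3.dvd_of_dvd_mul_left h2
  have h2 := int_dvd_zero hp β h1
  have h3 : (β : ℂ) = (Nat.card {g : J // ConjClasses.mk g = ConjClasses.mk x⁻¹} : ℂ) * χ x := by
    rw [hβ, AddSubmonoidClass.coe_finsetSum]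
    have h4 : ∀ g : J, ((b g * (if ConjClasses.mk g = ConjClasses.mk x⁻¹ then 1 else 0) :
        integralClosure ℤ ℂ) : ℂ) = if ConjClasses.mk g = ConjClasses.mk x⁻¹ then χ x else 0 := by
      intro g
      split_ifs with hg
      · rw [mul_one]
        change χ g⁻¹ = χ x
        rw [ConjClasses.mk_eq_mk_iff_isConj, isConj_iff] at hg
        obtain ⟨c, hc⟩ := hg
        have h5 : x = c * g⁻¹ * c⁻¹ := by
          rw [← inv_inv x, ← hc]
          group
        rw [h5]
        exact (h.isClass _ _).symm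
      · simp
    rw [Finset.sum_congr rfl fun g _ => h4 g, ← Finset.sum_filter, Finset.sum_const, nsmul_eq_mul,
      Nat.card_eq_fintype_card, Fintype.card_subtype]
  rw [h2] at h3
  have h4 : (Nat.card {g : J // ConjClasses.mk g = ConjClasses.mk x⁻¹} : ℂ) ≠ 0 := by
    have : Nonempty {g : J // ConjClasses.mk g = ConjClasses.mk x⁻¹} := ⟨⟨x⁻¹, rfl⟩⟩
    exact_mod_cast (Nat.card_pos (α := {g : J // ConjClasses.mk g = ConjClasses.mk x⁻¹})).ne'
  have h5 : (0 : ℂ) = (Nat.card {g : J // ConjClasses.mk g = ConjClasses.mk x⁻¹} : ℂ) * χ x := h3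
  exact (mul_eq_zero.1 h5.symm).resolve_left h4

end conv

end Pool.Agent.J4.H12.PG
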