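import Mathlib

/-!
# Sums over words and the rotation of words
-/

set_option autoImplicit false

open scoped BigOperators Classical

noncomputable section

namespace Pool.Agent.J4.H12.PG

/-! ### orbits -/

/-- the sum of an invariant function is divisible by `d` if all orbits have length divisible by
`d` -/
theorem orbit_sum_dvd {H Ω A : Type*} [Group H] [Finite H] [MulAction H Ω] [Fintype Ω] [CommRing A]
    (f : Ω → A) (hf : ∀ (h : H) (ω : Ω), f (h • ω) = f ω) (d : ℕ)
    (hd : ∀ ω : Ω, d ∣ Nat.card (MulAction.orbit H ω)) : (d : A) ∣ ∑ ω, f ω := by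
  have h1 : ∑ ω, f ω = ∑ q : MulAction.orbitRel.Quotient H Ω,
      ∑ ω ∈ Finset.univ.filter (fun ω => (Quotient.mk _ ω : MulAction.orbitRel.Quotient H Ω) = q),
        f ω := by
    rw [Finset.sum_fiberwise]
  rw [h1]
  refine Finset.dvd_sum fun q _ => ?_
  induction q using Quotient.inductionOn' with
  | h a =>
    have h2 : ∀ ω ∈ Finset.univ.filter (fun ω => (Quotient.mk _ ω :
        MulAction.orbitRel.Quotient H Ω) = Quotient.mk'' a), f ω = f a := by
      intro ω hω
      have h3 := (Finset.mem_filter.1 hω).2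
      have h4 : ω ∈ MulAction.orbit H a := by
        have := Quotient.exact' h3
        exact this
      obtain ⟨h, rfl⟩ := h4
      exact hf h a
    rw [Finset.sum_congr rfl h2, Finset.sum_const, nsmul_eq_mul]
    refine Dvd.dvd.mul_right ?_ _
    have h5 : (Finset.univ.filter (fun ω => (Quotient.mk _ ω :
        MulAction.orbitRel.Quotient H Ω) = Quotient.mk'' a)).card
        = Nat.card (MulAction.orbit H a) := by
      rw [← Fintype.card_subtype, ← Nat.card_eq_fintype_card]
      refine Nat.card_congr (Equiv.subtypeEquivRight fun ω => ?_)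
      constructor
      · intro h
        have := Quotient.exact' h
        exact this
      · intro h
        exact Quotient.sound' h
    rw [h5]
    obtain ⟨k, hk⟩ := hd a
    rw [hk]
    exact ⟨(k : A), by push_cast; ring⟩

/-- the sum over a permutation of order dividing `p ^ n` whose power `p ^ r` has no fixed point -/
theorem perm_sum_dvd {Ω A : Type*} [Fintype Ω] [CommRing A] {p : ℕ} (hp : p.Prime)
    (σ : Equiv.Perm Ω) (n r : ℕ) (hσ : σ ^ (p ^ n) = 1)
    (f : Ω → A) (hf : ∀ ω, f (σ ω) = f ω) (hfix : ∀ ω, (σ ^ (p ^ r)) ω ≠ ω) :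
    ((p ^ r : ℕ) : A) ∣ ∑ ω, f ω := by
  have hf' : ∀ (h : Subgroup.zpowers σ) (ω : Ω), f (h • ω) = f ω := by
    rintro ⟨h, hh⟩ ω
    obtain ⟨k, rfl⟩ := Subgroup.mem_zpowers_iff.1 hh
    change f ((σ ^ k) ω) = f ω
    have hpow : ∀ (m : ℕ) (ω : Ω), f ((σ ^ m) ω) = f ω := by
      intro m
      induction m with
      | zero => intro ω; simp
      | succ m ih => intro ω; rw [pow_succ', Equiv.Perm.mul_apply, hf, ih]
    obtain ⟨m, rfl | rfl⟩ := k.eq_nat_or_neg
    · rw [zpow_natCast]; exact hpow m ω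
    · rw [zpow_neg, zpow_natCast]
      have := hpow m ((σ ^ m)⁻¹ ω)
      have e : (σ ^ m) ((σ ^ m)⁻¹ ω) = ω := (σ ^ m).apply_symm_apply ω
      rw [e] at this
      exact this.symm
  refine orbit_sum_dvd (H := Subgroup.zpowers σ) f hf' (p ^ r) fun ω => ?_
  have h1 : Nat.card (MulAction.orbit (Subgroup.zpowers σ) ω) ∣ p ^ n := by
    have h2 : Nat.card (MulAction.orbit (Subgroup.zpowers σ) ω) ∣ Nat.card (Subgroup.zpowers σ) := by
      rw [Nat.card_congr (MulAction.orbitEquivQuotientStabilizer (Subgroup.zpowers σ) ω)]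
      exact Subgroup.card_quotient_dvd_card _
    rw [Nat.card_zpowers] at h2
    exact h2.trans (orderOf_dvd_of_pow_eq_one hσ)
  obtain ⟨k, hk, hk2⟩ := (Nat.dvd_prime_pow hp).1 h1
  rw [hk2]
  apply pow_dvd_pow
  by_contra hcon
  push Not at hcon
  have h3 : (⟨σ, Subgroup.mem_zpowers σ⟩ : Subgroup.zpowers σ) ^ (p ^ k) ∈
      MulAction.stabilizer (Subgroup.zpowers σ) ω := by
    have h4 : (MulAction.stabilizer (Subgroup.zpowers σ) ω).index = p ^ k := by
      rw [← hk2, MulAction.index_stabilizer]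
      rfl
    rw [← h4]
    exact Subgroup.pow_index_mem _ _
  have h5 : (σ ^ (p ^ k)) ω = ω := h3
  apply hfix ω
  have h6 : σ ^ (p ^ r) = (σ ^ (p ^ k)) ^ (p ^ (r - k)) := by
    rw [← pow_mul, ← pow_add, Nat.add_sub_cancel' hcon.le]
  rw [h6]
  exact Function.IsFixedPt.iterate (f := (σ ^ (p ^ k))) h5 _ |> fun h => by
    rw [← Equiv.Perm.iterate_eq_pow]
    exact h

/-! ### products of initial segments -/

section words
variable {G : Type} [Group G]

/-- the product of the first `k` letters -/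
def PP (u : ℕ → G) (k : ℕ) : G := ((List.range k).map u).prod

theorem PP_zero (u : ℕ → G) : PP u 0 = 1 := by simp [PP]

theorem PP_succ (u : ℕ → G) (k : ℕ) : PP u (k + 1) = PP u k * u k := by
  simp [PP, List.range_succ]

theorem PP_succ' (u : ℕ → G) (k : ℕ) : PP u (k + 1) = u 0 * PP (fun i => u (i + 1)) k := by
  induction k with
  | zero => simp [PP]
  | succ k ih => rw [PP_succ, ih, PP_succ, mul_assoc]

theorem PP_add (u : ℕ → G) (k l : ℕ) : PP u (k + l) = PP u k * PP (fun i => u (k + i)) l := by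
  induction l with
  | zero => simp [PP]
  | succ l ih => rw [← add_assoc, PP_succ, ih, PP_succ, mul_assoc]

theorem PP_period (u : ℕ → G) (r : ℕ) (hu : ∀ i, u (i + r) = u i) (s : ℕ) :
    PP u (r * s) = PP u r ^ s := by
  induction s with
  | zero => simp [PP]
  | succ s ih =>
    rw [Nat.mul_succ, PP_add, ih, pow_succ]
    congr 2
    funext i
    have : ∀ s : ℕ, u (r * s + i) = u i := by
      intro s
      induction s with
      | zero => simp
      | succ s ih2 =>
        rw [Nat.mul_succ, add_right_comm, hu, ih2]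
    exact this s

/-- the periodic extension of a word -/
def ex {M : ℕ} (hM : 0 < M) (w : Fin M → G) (i : ℕ) : G := w ⟨i % M, Nat.mod_lt _ hM⟩

/-- rotation -/
def rot {M : ℕ} (hM : 0 < M) (k : ℕ) (w : Fin M → G) : Fin M → G := fun i => ex hM w (i + k)

theorem ex_rot {M : ℕ} (hM : 0 < M) (k : ℕ) (w : Fin M → G) (i : ℕ) :
    ex hM (rot hM k w) i = ex hM w (i + k) := by
  change w ⟨(i % M + k) % M, _⟩ = w ⟨(i + k) % M, _⟩
  congr 1
  apply Fin.ext
  simp [Nat.add_mod]

theorem rot_rot {M : ℕ} (hM : 0 < M) (k l : ℕ) (w : Fin M → G) :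
    rot hM k (rot hM l w) = rot hM (k + l) w := by
  funext i
  change ex hM (rot hM l w) (i + k) = ex hM w (i + (k + l))
  rw [ex_rot, add_assoc]

theorem rot_zero {M : ℕ} (hM : 0 < M) (w : Fin M → G) : rot hM 0 w = w := by
  funext i
  unfold rot ex
  congr 1
  apply Fin.ext
  simp [Nat.mod_eq_of_lt i.2]

theorem rot_self {M : ℕ} (hM : 0 < M) (w : Fin M → G) : rot hM M w = w := by
  funext i
  unfold rot ex
  congr 1
  apply Fin.ext
  simp [Nat.mod_eq_of_lt i.2]

/-- rotation by one as a permutation of the words -/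
def rotP {M : ℕ} (hM : 0 < M) : Equiv.Perm (Fin M → G) where
  toFun := rot hM 1
  invFun := rot hM (M - 1)
  left_inv w := by
    rw [rot_rot, Nat.sub_add_cancel hM, rot_self]
  right_inv w := by
    rw [rot_rot, Nat.add_sub_cancel' hM, rot_self]

theorem rotP_pow {M : ℕ} (hM : 0 < M) (k : ℕ) (w : Fin M → G) :
    ((rotP hM : Equiv.Perm (Fin M → G)) ^ k) w = rot hM k w := by
  induction k with
  | zero => rw [pow_zero, rot_zero]; rfl
  | succ k ih =>
    rw [pow_succ', Equiv.Perm.mul_apply, ih]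
    change rot hM 1 (rot hM k w) = _
    rw [rot_rot, add_comm]

theorem ofFn_prod {M : ℕ} (hM : 0 < M) (w : Fin M → G) : (List.ofFn w).prod = PP (ex hM w) M := by
  unfold PP
  rw [List.ofFn_eq_map, ← List.map_coe_finRange_eq_range, List.map_map]
  congr 1
  refine List.map_congr_left fun i _ => ?_
  simp only [Function.comp, ex]
  congr 1
  apply Fin.ext
  simp [Nat.mod_eq_of_lt i.2]

theorem mk_rot {M : ℕ} (hM : 0 < M) (w : Fin M → G) :
    ConjClasses.mk (List.ofFn (rot hM 1 w)).prod = ConjClasses.mk (List.ofFn w).prod := by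
  rw [ofFn_prod hM, ofFn_prod hM]
  have h1 : PP (ex hM (rot hM 1 w)) M = (ex hM w 0)⁻¹ * PP (ex hM w) M * ex hM w 0 := by
    have h2 : ex hM (rot hM 1 w) = fun i => ex hM w (i + 1) := by
      funext i
      exact ex_rot hM 1 w i
    have h3 := PP_succ' (ex hM w) M
    rw [PP_succ] at h3
    have h4 : ex hM w M = ex hM w 0 := by
      unfold ex
      congr 1
      apply Fin.ext
      simp
    rw [h4] at h3
    rw [h2, mul_assoc, h3, inv_mul_cancel_left]
  rw [h1, ConjClasses.mk_eq_mk_iff_isConj, isConj_iff]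
  exact ⟨ex hM w 0, by group⟩

theorem prod_rot {A : Type*} [CommRing A] {M : ℕ} (hM : 0 < M) (w : Fin M → G) (b : G → A) :
    ∏ i, b (rot hM 1 w i) = ∏ i, b (w i) := by
  have hs : ∀ i : Fin M, (⟨((⟨(i + 1) % M, Nat.mod_lt _ hM⟩ : Fin M) + (M - 1)) % M,
      Nat.mod_lt _ hM⟩ : Fin M) = i := by
    intro i
    apply Fin.ext
    have hi := i.2
    simp only [Nat.mod_add_mod]
    have : (i : ℕ) + 1 + (M - 1) = i + M := by omega
    rw [this, Nat.add_mod_right, Nat.mod_eq_of_lt hi]
  have hs' : ∀ i : Fin M, (⟨((⟨(i + (M - 1)) % M, Nat.mod_lt _ hM⟩ : Fin M) + 1) % M,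
      Nat.mod_lt _ hM⟩ : Fin M) = i := by
    intro i
    apply Fin.ext
    have hi := i.2
    simp only [Nat.mod_add_mod]
    have : (i : ℕ) + (M - 1) + 1 = i + M := by omega
    rw [this, Nat.add_mod_right, Nat.mod_eq_of_lt hi]
  let e : Fin M ≃ Fin M :=
    { toFun := fun i => ⟨(i + 1) % M, Nat.mod_lt _ hM⟩
      invFun := fun i => ⟨(i + (M - 1)) % M, Nat.mod_lt _ hM⟩
      left_inv := hs
      right_inv := hs' }
  exact Fintype.prod_equiv e _ _ fun i => rfl

end words

/-! ### sums over words -/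

/-- a sum over words in terms of an idempotent up to a scalar -/
theorem word_sum {G : Type} {A : Type*} [Group G] [Fintype G] [CommRing A] (b : G → A) (m : A)
    (hb : ∀ x, ∑ g, b g * b (g⁻¹ * x) = m * b x) (n : ℕ) : ∀ (f : G → A),
    ∑ w : Fin (n + 1) → G, f (List.ofFn w).prod * ∏ i, b (w i) = m ^ n * ∑ h, b h * f h := by
  have hcons : ∀ (k : ℕ) (F : (Fin (k + 1) → G) → A), ∑ w : Fin (k + 1) → G, F w =
      ∑ g : G, ∑ w : Fin k → G, F (Fin.cons g w) := by
    intro k F
    rw [← Fintype.sum_prod_type']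
    refine (Fintype.sum_equiv (Fin.consEquiv (fun _ : Fin (k + 1) => G)) _ _ fun q => ?_).symm
    rfl
  induction n with
  | zero =>
    intro f
    rw [hcons]
    simp [mul_comm]
  | succ n ih =>
    intro f
    rw [hcons]
    have h1 : ∀ g : G, ∑ w : Fin (n + 1) → G, f (List.ofFn (Fin.cons g w : Fin (n + 2) → G)).prod *
        ∏ i, b ((Fin.cons g w : Fin (n + 2) → G) i) =
        b g * (m ^ n * ∑ h, b h * f (g * h)) := by
      intro g
      rw [← ih fun h => f (g * h), Finset.mul_sum]
      refine Finset.sum_congr rfl fun w _ => ?_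
      rw [List.ofFn_succ, List.prod_cons, Fin.prod_univ_succ]
      simp only [Fin.cons_zero, Fin.cons_succ]
      ring
    rw [Finset.sum_congr rfl fun g _ => h1 g]
    have h2 : ∀ g : G, ∑ h, b h * f (g * h) = ∑ x, b (g⁻¹ * x) * f x := by
      intro g
      refine Fintype.sum_equiv (Equiv.mulLeft g) _ _ fun h => ?_
      simp
    calc ∑ g, b g * (m ^ n * ∑ h, b h * f (g * h))
        = m ^ n * ∑ g, ∑ x, b g * (b (g⁻¹ * x) * f x) := by
          rw [Finset.mul_sum]
          refine Finset.sum_congr rfl fun g _ => ?_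
          rw [h2, Finset.mul_sum, Finset.mul_sum, Finset.mul_sum]
          refine Finset.sum_congr rfl fun x _ => ?_
          ring
      _ = m ^ n * ∑ x, (∑ g, b g * b (g⁻¹ * x)) * f x := by
          rw [Finset.sum_comm]
          congr 1
          refine Finset.sum_congr rfl fun x _ => ?_
          rw [Finset.sum_mul]
          refine Finset.sum_congr rfl fun g _ => ?_
          ring
      _ = m ^ (n + 1) * ∑ h, b h * f h := by
          rw [pow_succ, mul_assoc, Finset.mul_sum (a := m)]
          congr 1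
          refine Finset.sum_congr rfl fun x _ => ?_
          rw [hb]
          ring

/-- **divisibility of the coefficient sums of idempotents at `p`-singular classes** -/
theorem class_sum_dvd {G : Type} {A : Type*} [Group G] [Fintype G] [CommRing A] {p : ℕ}
    (hp : p.Prime) (b : G → A) (m : A) (hb : ∀ x, ∑ g, b g * b (g⁻¹ * x) = m * b x)
    (x : G) (hx : p ∣ orderOf x) (r : ℕ) :
    ((p ^ r : ℕ) : A) ∣ m ^ (p ^ (r + (Nat.card G).factorization p) - 1) *
      ∑ h, b h * (if ConjClasses.mk h = ConjClasses.mk x then 1 else 0) := by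
  set v := (Nat.card G).factorization p with hv
  have hM : 0 < p ^ (r + v) := pow_pos hp.pos _
  obtain ⟨N, hN⟩ : ∃ N, p ^ (r + v) = N + 1 := ⟨p ^ (r + v) - 1, (Nat.sub_add_cancel hM).symm⟩
  have h1 := word_sum b m hb N (fun g => if ConjClasses.mk g = ConjClasses.mk x then 1 else 0)
  have h2 : p ^ (r + v) - 1 = N := by omega
  rw [h2, ← h1]
  have hM' : 0 < N + 1 := Nat.succ_pos N
  have h3 : ∑ w : Fin (N + 1) → G, (if ConjClasses.mk (List.ofFn w).prod = ConjClasses.mk x
      then (1 : A) else 0) * ∏ i, b (w i) =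
      ∑ w : {w : Fin (N + 1) → G // ConjClasses.mk (List.ofFn w).prod = ConjClasses.mk x},
        ∏ i, b (w.1 i) := by
    simp only [ite_mul, one_mul, zero_mul]
    rw [← Finset.sum_filter]
    exact (Finset.sum_subtype (Finset.univ.filter fun w : Fin (N + 1) → G =>
      ConjClasses.mk (List.ofFn w).prod = ConjClasses.mk x) (by simp) _)
  rw [h3]
  have hmem : ∀ w : Fin (N + 1) → G, ConjClasses.mk (List.ofFn w).prod = ConjClasses.mk x ↔
      ConjClasses.mk (List.ofFn ((rotP hM' : Equiv.Perm (Fin (N + 1) → G)) w)).prod =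
        ConjClasses.mk x := by
    intro w
    change _ ↔ ConjClasses.mk (List.ofFn (rot hM' 1 w)).prod = ConjClasses.mk x
    rw [mk_rot]
  set σ : Equiv.Perm {w : Fin (N + 1) → G //
    ConjClasses.mk (List.ofFn w).prod = ConjClasses.mk x} := (rotP hM').subtypePerm
      (fun w => (hmem w).symm) with hσ
  have hpow : ∀ (k : ℕ) (w : {w : Fin (N + 1) → G //
      ConjClasses.mk (List.ofFn w).prod = ConjClasses.mk x}), ((σ ^ k) w).1 = rot hM' k w.1 := by
    intro k w
    induction k with
    | zero => rw [pow_zero, rot_zero]; rfl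
    | succ k ih =>
      rw [pow_succ', Equiv.Perm.mul_apply]
      change rot hM' 1 ((σ ^ k) w).1 = _
      rw [ih, rot_rot, Nat.add_comm 1 k]
  refine perm_sum_dvd hp σ (r + v) r ?_ (fun w => ∏ i, b (w.1 i)) ?_ ?_
  · ext1 w
    apply Subtype.ext
    rw [hpow, hN, rot_self]
    rfl
  · intro w
    exact prod_rot hM' w.1 b
  · intro w hw
    have h4 := hpow (p ^ r) w
    rw [hw] at h4
    have h5 : ∀ i, ex hM' w.1 (i + p ^ r) = ex hM' w.1 i := by
      intro i
      rw [← ex_rot, ← h4]
    have h6 := PP_period (ex hM' w.1) (p ^ r) h5 (p ^ v)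
    rw [← pow_add, hN, ← ofFn_prod] at h6
    have h7 := w.2
    rw [ConjClasses.mk_eq_mk_iff_isConj] at h7
    have h8 : orderOf (List.ofFn w.1).prod = orderOf x := by
      obtain ⟨c, hc⟩ := isConj_iff.1 h7
      have h81 : c * (List.ofFn w.1).prod * c⁻¹ = MulAut.conj c (List.ofFn w.1).prod := by simp
      have h82 := MulEquiv.orderOf_eq (MulAut.conj c) (List.ofFn w.1).prod
      rw [← h81, hc] at h82
      exact h82.symm
    rw [← h8, h6] at hx
    have h9 : p ^ v ∣ Nat.card G := Nat.ordProj_dvd _ _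
    obtain ⟨s, hs⟩ := h9
    have h10 : orderOf (PP (ex hM' w.1) (p ^ r) ^ p ^ v) ∣ s := by
      apply orderOf_dvd_of_pow_eq_one
      rw [← pow_mul, ← hs, pow_card_eq_one']
    have h11 : p ∣ s := hx.trans h10
    have h12 : p ^ (v + 1) ∣ Nat.card G := by
      rw [hs, pow_succ]
      exact Nat.mul_dvd_mul_left _ h11
    have h13 := (hp.pow_dvd_iff_le_factorization Nat.card_pos.ne').1 h12
    omega

end Pool.Agent.J4.H12.PG
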